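import Pool.Agent.H52.SH.Stubs
import Pool.Agent.H52.V.S8.H38R2.CG2.M1L

/-!
# M1L: weighted first moment of the ideal counts, lower bound, in short intervals

Adapted from `CG2/M1L.lean`.
-/

set_option autoImplicit false

namespace Pool.Agent.H52.SH.M1L

open Finset Filter NumberField Pool.Agent.H38R2.CG Pool.Agent.H38R2.CG2
open scoped Classical
open Pool.Agent.H38R2.CG.M1Lh (chi_odd Q_pos prime_dvd_Q sq_dvd_of_not_fund prodS_pos)
open Pool.Agent.H38R2.CG2.M1Lh (GG_pos lcm_term lcm_sum wt_le copr_sq jac_prodS expand prodS_dvd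
  prodS_sqf prodS_nsq prodS_copr)

variable {z X T : ℕ} {P : Finset ℕ} {δ : ℝ} {C0 : ℕ} {ρ : ℕ → ℝ}

/-- discriminants which are not fundamental -/
lemma nonfund (z r X T : ℕ) (hXT : X ≤ T) (hr : FundRes z r) (hX : 1 ≤ X)
    (f : ℕ → ℝ) (hf : ∀ D, 1 ≤ D → 0 ≤ f D) :
    ∑ D ∈ DT z r X T, f D ≤ ∑ D ∈ FT z r X T, f D +
      ∑ l ∈ (Ioc z (2 * T)).filter Nat.Prime,
        ∑ D ∈ (DT z r X T).filter (fun D => l ^ 2 ∣ D), f D := by
  have hsplit := sum_filter_add_sum_filter_not (DT z r X T) IsFund f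
  rw [← hsplit]
  unfold FT
  gcongr
  simp_rw [sum_filter (fun D => (_ ^ 2) ∣ D)]
  rw [sum_comm, sum_filter]
  apply sum_le_sum
  intro D hD
  simp only [DT, mem_filter, mem_Ioc] at hD
  have hD1 : 1 ≤ D := by omega
  have hnn : ∀ l ∈ (Ioc z (2 * T)).filter Nat.Prime, 0 ≤ if l ^ 2 ∣ D then f D else 0 := by
    intro l _; split_ifs
    · exact hf D hD1
    · exact le_rfl
  by_cases hn : IsFund D
  · simp only [hn, not_true_eq_false, if_false]
    exact sum_nonneg hnn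
  · simp only [hn, not_false_eq_true, if_true]
    obtain ⟨l, hl, hzl, hd⟩ := sq_dvd_of_not_fund z r D hr hD.2 (by omega) hn
    have hDle : D ≤ 2 * T := by omega
    have hll : l ≤ 2 * T := by
      have h4 : l ^ 2 ≤ D := Nat.le_of_dvd (by omega) hd
      nlinarith [hl.one_lt]
    have hmem : l ∈ (Ioc z (2 * T)).filter Nat.Prime := by
      simp only [mem_filter, mem_Ioc]; exact ⟨⟨hzl, hll⟩, hl⟩
    have := single_le_sum hnn hmem
    simpa [hd] using this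

lemma card_sq (z r X T : ℕ) (hXT : X ≤ T) (l : ℕ) (hl : 1 ≤ l) :
    (((DT z r X T).filter (fun D => l ^ 2 ∣ D)).card : ℝ) ≤
      X * ((l:ℝ) ^ 2)⁻¹ + (if l ≤ Nat.sqrt (2 * T) then 1 else 0) := by
  by_cases hls : l ≤ Nat.sqrt (2 * T)
  · rw [if_pos hls]
    have hsub : (DT z r X T).filter (fun D => l ^ 2 ∣ D) ⊆
        (Ioc T (T + X)).filter (fun D => l ^ 2 ∣ D) := by
      intro D hD
      simp only [DT, mem_filter, mem_Ioc] at hD ⊢
      exact ⟨hD.1.1, hD.2⟩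
    have hl2 : 0 < l ^ 2 := by positivity
    have hsplit : ((Ioc T (T + X)).filter (fun D => l ^ 2 ∣ D)).card + T / l ^ 2 =
        (T + X) / l ^ 2 := by
      rw [← Nat.Ioc_filter_dvd_card_eq_div (T + X) (l ^ 2), ← Nat.Ioc_filter_dvd_card_eq_div T (l ^ 2),
        ← card_union_of_disjoint]
      · congr 1
        ext D
        simp only [mem_union, mem_filter, mem_Ioc]
        constructor
        · rintro (⟨⟨h1, h2⟩, h3⟩ | ⟨⟨h1, h2⟩, h3⟩)
          · exact ⟨⟨by omega, h2⟩, h3⟩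
          · exact ⟨⟨h1, by omega⟩, h3⟩
        · rintro ⟨⟨h1, h2⟩, h3⟩
          by_cases h4 : D ≤ T
          · exact Or.inr ⟨⟨h1, h4⟩, h3⟩
          · exact Or.inl ⟨⟨by omega, h2⟩, h3⟩
      · rw [disjoint_left]
        intro D h1 h2
        simp only [mem_filter, mem_Ioc] at h1 h2
        omega
    have h1 : (T + X) / l ^ 2 ≤ T / l ^ 2 + X / l ^ 2 + 1 := by
      rw [Nat.div_le_iff_le_mul_add_pred hl2]
      have h2 := Nat.div_add_mod T (l ^ 2)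
      have h3 := Nat.div_add_mod X (l ^ 2)
      have h4 := Nat.mod_lt T hl2
      have h5 := Nat.mod_lt X hl2
      have h6 : l ^ 2 * (T / l ^ 2 + X / l ^ 2 + 1) =
        l ^ 2 * (T / l ^ 2) + l ^ 2 * (X / l ^ 2) + l ^ 2 := by ring
      omega
    have h2 : ((DT z r X T).filter (fun D => l ^ 2 ∣ D)).card ≤ X / l ^ 2 + 1 := by
      have := card_le_card hsub
      omega
    have h3 : ((X / l ^ 2 : ℕ) : ℝ) ≤ (X : ℝ) / ((l ^ 2 : ℕ) : ℝ) := Nat.cast_div_le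
    have h4 : (((DT z r X T).filter (fun D => l ^ 2 ∣ D)).card : ℝ) ≤ ((X / l ^ 2 + 1 : ℕ) : ℝ) := by
      exact_mod_cast h2
    push_cast at h3 h4
    rw [div_eq_mul_inv] at h3
    linarith
  · rw [if_neg hls]
    have h1 : (DT z r X T).filter (fun D => l ^ 2 ∣ D) = ∅ := by
      rw [filter_eq_empty_iff]
      intro D hD hd
      simp only [DT, mem_filter, mem_Ioc] at hD
      have h2 : l ^ 2 ≤ D := Nat.le_of_dvd (by omega) hd
      apply hls
      rw [Nat.le_sqrt']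
      omega
    rw [h1]
    simp only [card_empty, Nat.cast_zero, add_zero]
    positivity

/-- the sum over the square factors -/
lemma sum_bound (hV0 : Q_V0) (r L : ℕ) (hXT : X ≤ T) (hz : 2 ≤ z)
    (hr : r < Qz z) (hX : 3 ≤ X) (hδ : δ ≤ 1) (hC : 1 ≤ C0) (hL : 1 ≤ L)
    (h : SWt z X P δ C0 ρ) :
    ∑ l ∈ (Ioc z (2 * T)).filter Nat.Prime,
        ∑ D ∈ (DT z r X T).filter (fun D => l ^ 2 ∣ D), wt ρ D ≤
      2 * C0 / z * WS z X ρ + L * (2 * (X : ℝ) ^ δ) + (X : ℝ) ^ δ * X / L +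
        (X : ℝ) ^ δ * √(2 * T : ℝ) := by
  have hQ : (0:ℝ) < (Qz z : ℝ) := by exact_mod_cast Q_pos z
  have hG := GG_pos hX h
  have hsq : ∀ m n : ℕ, 1 ≤ m → ∑ l ∈ Ioc m n, ((l:ℝ)^2)⁻¹ ≤ (m:ℝ)⁻¹ := by
    intro m n hm
    rcases le_or_gt m n with h | h
    · have := sum_Ioc_inv_sq_le_sub (α := ℝ) (k := m) (n := n) (by omega) h
      have h2 : (0:ℝ) ≤ (n:ℝ)⁻¹ := by positivity
      linarith
    · rw [Ioc_eq_empty (by omega)]; simp
  have hXδ : (0:ℝ) ≤ (X : ℝ) ^ δ := by positivity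
  have hterm : ∀ l ∈ (Ioc z (2 * T)).filter Nat.Prime,
      ∑ D ∈ (DT z r X T).filter (fun D => l ^ 2 ∣ D), wt ρ D ≤
        2 * C0 * WS z X ρ * ((l:ℝ) ^ 2)⁻¹ + (if l ≤ L then 2 * (X : ℝ) ^ δ else 0) +
        (if l ≤ L then 0 else (X : ℝ) ^ δ * X * ((l:ℝ) ^ 2)⁻¹) +
        (if l ≤ Nat.sqrt (2 * T) then (X : ℝ) ^ δ else 0) := by
    intro l hl
    simp only [mem_filter, mem_Ioc] at hl
    have hWW : 0 ≤ WS z X ρ := by unfold WS; positivity
    have hnn : (0:ℝ) ≤ 2 * C0 * WS z X ρ * ((l:ℝ) ^ 2)⁻¹ := by positivity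
    have hnn2 : (0:ℝ) ≤ (if l ≤ Nat.sqrt (2 * T) then (X : ℝ) ^ δ else 0) := by
      split_ifs
      · exact hXδ
      · exact le_rfl
    by_cases hlL : l ≤ L
    · rw [if_pos hlL, if_pos hlL]
      have a1 := hV0 z r X T P δ C0 ρ (l ^ 2) hr (by omega) hδ h
        (Nat.one_le_iff_ne_zero.2 (pow_ne_zero 2 hl.2.ne_zero)) (copr_sq hz hl.2 hl.1.1)
      have a2 := (abs_le.1 a1).2
      have a3 := lcm_sum hX hC h hl.2
      have a4 : X / Qz z * ∑ d ∈ Finset.Icc 1 X, ρ d / (Nat.lcm d (l ^ 2) : ℝ) ≤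
          2 * C0 * WS z X ρ * ((l:ℝ) ^ 2)⁻¹ := by
        calc _ ≤ X / Qz z * (2 * C0 * GG X ρ * ((l : ℝ) ^ 2)⁻¹) :=
              mul_le_mul_of_nonneg_left a3 (by positivity)
          _ = _ := by unfold WS; ring
      linarith
    · rw [if_neg hlL, if_neg hlL]
      have a1 : ∑ D ∈ (DT z r X T).filter (fun D => l ^ 2 ∣ D), wt ρ D ≤
          (X : ℝ) ^ δ * (X * ((l:ℝ) ^ 2)⁻¹ + (if l ≤ Nat.sqrt (2 * T) then 1 else 0)) := by
        calc ∑ D ∈ (DT z r X T).filter (fun D => l ^ 2 ∣ D), wt ρ D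
            ≤ ∑ _D ∈ (DT z r X T).filter (fun D => l ^ 2 ∣ D), (X : ℝ) ^ δ :=
              sum_le_sum fun D _ => wt_le h D
          _ = (X : ℝ) ^ δ * (((DT z r X T).filter (fun D => l ^ 2 ∣ D)).card : ℝ) := by
              rw [sum_const, nsmul_eq_mul]; ring
          _ ≤ _ := mul_le_mul_of_nonneg_left (card_sq z r X T hXT l hl.2.one_le) hXδ
      have a5 : (X : ℝ) ^ δ * (X * ((l:ℝ) ^ 2)⁻¹ + (if l ≤ Nat.sqrt (2 * T) then 1 else 0)) =
          (X : ℝ) ^ δ * X * ((l:ℝ) ^ 2)⁻¹ + (if l ≤ Nat.sqrt (2 * T) then (X : ℝ) ^ δ else 0) := by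
        split_ifs <;> ring
      linarith
  refine (sum_le_sum hterm).trans ?_
  have hext : ∀ f : ℕ → ℝ, (∀ l, 0 ≤ f l) → ∑ l ∈ (Ioc z (2 * T)).filter Nat.Prime, f l ≤
      ∑ l ∈ Ioc z (2 * T), f l := by
    intro f hf
    exact sum_le_sum_of_subset_of_nonneg (filter_subset _ _) fun l _ _ => hf l
  have hWW : 0 ≤ WS z X ρ := by unfold WS; positivity
  rw [sum_add_distrib, sum_add_distrib, sum_add_distrib]
  have b1 : ∑ l ∈ (Ioc z (2 * T)).filter Nat.Prime, 2 * C0 * WS z X ρ * ((l:ℝ) ^ 2)⁻¹ ≤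
      2 * C0 / z * WS z X ρ := by
    refine (hext _ (fun l => by positivity)).trans ?_
    rw [← mul_sum]
    have := hsq z (2*T) (by omega)
    calc _ ≤ 2 * C0 * WS z X ρ * (z : ℝ)⁻¹ := by gcongr
      _ = _ := by rw [div_eq_mul_inv]; ring
  have b2 : ∑ l ∈ (Ioc z (2 * T)).filter Nat.Prime, (if l ≤ L then 2 * (X : ℝ) ^ δ else 0) ≤
      L * (2 * (X : ℝ) ^ δ) := by
    refine (hext _ (fun l => by split_ifs <;> positivity)).trans ?_
    rw [← sum_filter, sum_const, nsmul_eq_mul]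
    gcongr
    have : (Ioc z (2 * T)).filter (fun l => l ≤ L) ⊆ Ioc 0 L := by
      intro l hl; simp only [mem_filter, mem_Ioc] at hl ⊢; omega
    refine (card_le_card this).trans ?_
    simp
  have b4 : ∑ l ∈ (Ioc z (2 * T)).filter Nat.Prime,
      (if l ≤ Nat.sqrt (2 * T) then (X : ℝ) ^ δ else 0) ≤ (X : ℝ) ^ δ * √(2 * T : ℝ) := by
    refine (hext _ (fun l => by split_ifs <;> positivity)).trans ?_
    rw [← sum_filter, sum_const, nsmul_eq_mul, mul_comm]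
    have h1 : (Ioc z (2 * T)).filter (fun l => l ≤ Nat.sqrt (2 * T)) ⊆
        Ioc 0 (Nat.sqrt (2 * T)) := by
      intro l hl; simp only [mem_filter, mem_Ioc] at hl ⊢; omega
    have h2 : ((Ioc z (2 * T)).filter (fun l => l ≤ Nat.sqrt (2 * T))).card ≤
        Nat.sqrt (2 * T) := by
      refine (card_le_card h1).trans ?_
      simp
    have h3 : ((Nat.sqrt (2 * T) : ℕ) : ℝ) ≤ √(2 * T : ℝ) := by
      have := Real.nat_sqrt_le_real_sqrt (a := 2 * T)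
      push_cast at this
      exact this
    have h4 : (((Ioc z (2 * T)).filter (fun l => l ≤ Nat.sqrt (2 * T))).card : ℝ) ≤
        √(2 * T : ℝ) := le_trans (by exact_mod_cast h2) h3
    exact mul_le_mul_of_nonneg_left h4 hXδ
  have b3 : ∑ l ∈ (Ioc z (2 * T)).filter Nat.Prime,
      (if l ≤ L then 0 else (X : ℝ) ^ δ * X * ((l:ℝ) ^ 2)⁻¹) ≤
      (X : ℝ) ^ δ * X / L := by
    refine (hext _ (fun l => by split_ifs <;> positivity)).trans ?_
    have e : ∑ l ∈ Ioc z (2 * T), (if l ≤ L then (0:ℝ) else (X : ℝ) ^ δ * X * ((l:ℝ) ^ 2)⁻¹)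
        ≤ ∑ l ∈ Ioc L (2 * T), (X : ℝ) ^ δ * X * ((l:ℝ) ^ 2)⁻¹ := by
      have e1 : ∑ l ∈ Ioc z (2 * T),
          (if l ≤ L then (0:ℝ) else (X : ℝ) ^ δ * X * ((l:ℝ) ^ 2)⁻¹) =
          ∑ l ∈ (Ioc z (2 * T)).filter (fun l => ¬ l ≤ L),
            (X : ℝ) ^ δ * X * ((l:ℝ) ^ 2)⁻¹ := by
        rw [sum_filter]
        refine sum_congr rfl fun l _ => ?_
        split_ifs <;> rfl
      rw [e1]
      apply sum_le_sum_of_subset_of_nonneg
      · intro l hl; simp only [mem_filter, mem_Ioc] at hl ⊢; omega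
      · intro l _ _; positivity
    refine e.trans ?_
    rw [← mul_sum, div_eq_mul_inv]
    have := hsq L (2*T) hL
    gcongr
  linarith

theorem main : P2_SZ → P2_NB → P2_WT → Q_V0 → Q_V1 → Q_M1L := by
  intro hSZ hNB hWT hV0 hV1 a ha κ hκ z r hz hr C0 hC ε hε
  have hQ : (0:ℝ) < (Qz z : ℝ) := by exact_mod_cast Q_pos z
  set c := cc a with hcdef
  have hc0 : 0 < c := by
    rw [hcdef]; unfold cc
    apply div_pos <;> linarith
  have hc1 : c < 1 / 32 := by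
    rw [hcdef]; unfold cc
    rw [div_lt_div_iff₀ (by linarith) (by norm_num)]
    linarith
  have hth : th a = 1 - 8 * c := rfl
  obtain ⟨X1, hX1⟩ := hSZ a ha
  obtain ⟨X2, hX2⟩ := hNB a ha (c / 4) (by linarith)
  obtain ⟨X3, hX3⟩ := hV1 a ha κ hκ z r hr C0
  have hyy : Tendsto (yA a) atTop atTop := by
    unfold yA
    apply tendsto_nat_floor_atTop.comp
    apply Tendsto.atTop_div_const (by norm_num)
    exact (tendsto_rpow_atTop (by linarith)).comp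
      (Real.tendsto_log_atTop.comp tendsto_natCast_atTop_atTop)
  obtain ⟨X4, hX4⟩ := (tendsto_atTop.1 hyy z).exists_forall_of_atTop
  have hlo := isLittleO_log_rpow_rpow_atTop (s := 3 * c / 4) (C0 : ℝ) (by linarith)
  have hlo2 := hlo.bound (c := ε / (9 * Qz z)) (by positivity)
  obtain ⟨X5, hX5⟩ := (tendsto_natCast_atTop_atTop.eventually hlo2).exists_forall_of_atTop
  refine ⟨max (max (max X1 X2) (max X3 X4)) (max X5 3), fun X hX T hRG ρ hρ s hs => ?_⟩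
  obtain ⟨hXT, hTX⟩ := hRG
  simp only [ge_iff_le, max_le_iff] at hX
  obtain ⟨⟨⟨hXa, hXb⟩, ⟨hXc, hXd⟩⟩, ⟨hXe, hX3'⟩⟩ := hX
  have hXr : (1:ℝ) ≤ X := by exact_mod_cast (by omega : 1 ≤ X)
  have hXp : (0:ℝ) < X := by linarith
  have hlog : 0 < Real.log X := by
    apply Real.log_pos
    exact_mod_cast (by omega : 1 < X)
  have hG := GG_pos hX3' hρ
  simp only [SA, mem_powersetCard] at hs
  obtain ⟨hsP, hsk⟩ := hs
  have hs1 : ∀ p ∈ s, p.Prime ∧ z < p := fun p hp => by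
    have h := hsP hp
    simp only [PA, PP, mem_filter, mem_Ioc] at h
    exact ⟨h.2, lt_of_le_of_lt (hX4 X hXd) h.1.1⟩
  have hs2 : ∀ p ∈ s, p.Prime ∧ p ≠ 2 := fun p hp =>
    ⟨(hs1 p hp).1, by have := (hs1 p hp).2; omega⟩
  have hsz : (prodS s : ℝ) ≤ (X : ℝ) ^ (th a + c) := by
    have h := (hX1 X hXa ∅ s (empty_subset _) hsP (by rw [card_empty, zero_add, hsk])).2
    have e : prodS ∅ = 1 := by unfold prodS; simp
    rw [e] at h
    simpa using h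
  have hk2 : (2:ℝ) ^ s.card ≤ (X:ℝ) ^ (c / 4) := by
    rw [hsk]; exact (hX2 X hXb).2.2.1
  -- expansion
  have hexp : ∑ D ∈ FT z r X T, wt ρ D * ∏ p ∈ s, (1 + (chi D p : ℝ)) =
      ∑ D ∈ FT z r X T, wt ρ D +
      ∑ t ∈ s.powerset.erase ∅,
        ∑ D ∈ FT z r X T, wt ρ D * ((jacobiSym (D : ℤ) (prodS t) : ℤ) : ℝ) := by
    have e1 : ∑ D ∈ FT z r X T, wt ρ D * ∏ p ∈ s, (1 + (chi D p : ℝ)) =
        ∑ t ∈ s.powerset,
          ∑ D ∈ FT z r X T, wt ρ D * ((jacobiSym (D : ℤ) (prodS t) : ℤ) : ℝ) := by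
      rw [sum_comm]
      refine sum_congr rfl fun D _ => ?_
      rw [expand D s hs2, mul_sum]
    rw [e1, ← add_sum_erase _ _ (empty_mem_powerset s)]
    congr 1
    refine sum_congr rfl fun D _ => ?_
    have e : prodS ∅ = 1 := by unfold prodS; simp
    rw [e, jacobiSym.one_right]; simp
  -- the terms with t nonempty
  have hte : -(X:ℝ) ^ (1 - 3 * c / 4) ≤ ∑ t ∈ s.powerset.erase ∅,
        ∑ D ∈ FT z r X T, wt ρ D * ((jacobiSym (D : ℤ) (prodS t) : ℤ) : ℝ) := by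
    have hb : ∀ t ∈ s.powerset.erase ∅, -(X:ℝ) ^ (1 - c) ≤
        ∑ D ∈ FT z r X T, wt ρ D * ((jacobiSym (D : ℤ) (prodS t) : ℤ) : ℝ) := by
      intro t ht
      obtain ⟨hne, hts⟩ := mem_erase.1 ht
      have hts' := mem_powerset.1 hts
      have ht1 : ∀ p ∈ t, p.Prime ∧ z < p := fun p hp => hs1 p (hts' hp)
      have ht2 : ∀ p ∈ t, p.Prime ∧ p ≠ 2 := fun p hp => hs2 p (hts' hp)
      have hm := ((hX3 X hXc T ⟨hXT, hTX⟩ ρ hρ (prodS t) (prodS_pos t ht2) (prodS_copr hz t ht1)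
        (prodS_nsq t (fun p hp => (ht1 p hp).1) (nonempty_iff_ne_empty.2 hne))).2 ?_)
      · exact (abs_le.1 hm).1
      · have h2 : prodS t ≤ prodS s := Nat.le_of_dvd (prodS_pos s hs2) (prodS_dvd s t hts')
        have h3 : (prodS t : ℝ) ≤ prodS s := by exact_mod_cast h2
        refine (h3.trans hsz).trans ?_
        apply Real.rpow_le_rpow_of_exponent_le hXr
        linarith
    have hcard : ((s.powerset.erase ∅).card : ℝ) ≤ (X:ℝ) ^ (c / 4) := by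
      refine le_trans ?_ hk2
      have : (s.powerset.erase ∅).card ≤ 2 ^ s.card := by
        rw [← card_powerset]; exact card_le_card (erase_subset _ _)
      exact_mod_cast this
    calc -(X:ℝ) ^ (1 - 3 * c / 4) = -((X:ℝ) ^ (c / 4) * (X:ℝ) ^ (1 - c)) := by
          rw [← Real.rpow_add hXp]; congr 2; ring
      _ ≤ -(((s.powerset.erase ∅).card : ℝ) * (X:ℝ) ^ (1 - c)) := by
          have : (0:ℝ) ≤ (X:ℝ) ^ (1 - c) := by positivity
          have h3 := mul_le_mul_of_nonneg_right hcard this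
          linarith
      _ = ∑ _t ∈ s.powerset.erase ∅, -(X:ℝ) ^ (1 - c) := by
          rw [sum_const, nsmul_eq_mul]; ring
      _ ≤ _ := sum_le_sum hb
  -- the term with t empty
  have hWT' : ∀ D, 1 ≤ D → 0 ≤ wt ρ D := fun D hD =>
    (hWT z X (PA a X) c C0 ρ (by omega) (by linarith) hρ D hD).1
  have hB := nonfund z r X T hXT hr (by omega) (wt ρ) hWT'
  set L := ⌊(X:ℝ) ^ (2 * c)⌋₊ with hLdef
  have hXL : (1:ℝ) ≤ (X:ℝ) ^ (2 * c) := Real.one_le_rpow hXr (by linarith)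
  have hL1 : 1 ≤ L := Nat.le_floor (by simpa using hXL)
  have hLu : (L:ℝ) ≤ (X:ℝ) ^ (2 * c) := Nat.floor_le (by positivity)
  have hLl : (X:ℝ) ^ (2 * c) ≤ 2 * L := by
    have h2 := (Nat.lt_floor_add_one ((X:ℝ) ^ (2 * c))).le
    have h3 : (1:ℝ) ≤ L := by exact_mod_cast hL1
    linarith
  have hSB := sum_bound hV0 r L hXT hz hr.1 hX3' (by linarith) hC hL1 hρ
  have hV := hV0 z r X T (PA a X) c C0 ρ 1 hr.1 (by omega) (by linarith) hρ le_rfl
    (Nat.coprime_one_left _)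
  have hV' : WS z X ρ - 2 * (X:ℝ) ^ c ≤ ∑ D ∈ DT z r X T, wt ρ D := by
    have e1 : (DT z r X T).filter (fun D => 1 ∣ D) = DT z r X T := by
      apply filter_true_of_mem
      intro D _; exact one_dvd D
    have e2 : X / Qz z * ∑ d ∈ Finset.Icc 1 X, ρ d / (Nat.lcm d 1 : ℝ) = WS z X ρ := by
      unfold WS GG
      simp only [Nat.lcm_one_right]
    rw [e1, e2] at hV
    have := (abs_le.1 hV).1
    linarith
  -- error terms
  have p1 : (X:ℝ) ^ c ≤ (X:ℝ) ^ (1 - 3 * c / 4) :=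
    Real.rpow_le_rpow_of_exponent_le hXr (by linarith)
  have p2 : (L:ℝ) * (2 * (X:ℝ) ^ c) ≤ 2 * (X:ℝ) ^ (1 - 3 * c / 4) := by
    calc (L:ℝ) * (2 * (X:ℝ) ^ c) ≤ (X:ℝ) ^ (2 * c) * (2 * (X:ℝ) ^ c) := by gcongr
      _ = 2 * (X:ℝ) ^ (3 * c) := by
          rw [show (X:ℝ) ^ (2 * c) * (2 * (X:ℝ) ^ c) = 2 * ((X:ℝ) ^ (2 * c) * (X:ℝ) ^ c) by ring,
            ← Real.rpow_add hXp]
          congr 2; ring
      _ ≤ _ := by
          have := Real.rpow_le_rpow_of_exponent_le hXr (show 3 * c ≤ 1 - 3 * c / 4 by linarith)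
          linarith
  have p3 : (X:ℝ) ^ c * X / L ≤ 2 * (X:ℝ) ^ (1 - 3 * c / 4) := by
    have hLpos : (0:ℝ) < L := by exact_mod_cast hL1
    have e : (X:ℝ) ^ c * X = (X:ℝ) ^ (1 - c) * (X:ℝ) ^ (2 * c) := by
      rw [← Real.rpow_add hXp, show 1 - c + 2 * c = c + 1 by ring, Real.rpow_add hXp,
        Real.rpow_one]
    have h5 : (X:ℝ) ^ c * X / L ≤ 2 * (X:ℝ) ^ (1 - c) := by
      rw [div_le_iff₀ hLpos, e]
      have hp : (0:ℝ) ≤ (X:ℝ) ^ (1 - c) := by positivity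
      nlinarith [mul_le_mul_of_nonneg_left hLl hp]
    have h6 := Real.rpow_le_rpow_of_exponent_le hXr (show 1 - c ≤ 1 - 3 * c / 4 by linarith)
    linarith
  have p5 : (X:ℝ) ^ c * √(2 * T : ℝ) ≤ 2 * (X:ℝ) ^ (1 - 3 * c / 4) := by
    have h5 : √(2 * T : ℝ) ≤ 2 * (X:ℝ) ^ (3 / 4 : ℝ) := by
      rw [Real.sqrt_mul (by norm_num)]
      have h6 : √(2:ℝ) ≤ 2 := by
        rw [Real.sqrt_le_left (by norm_num)]
        norm_num
      have h7 : √(T : ℝ) ≤ (X : ℝ) ^ (3 / 4 : ℝ) := by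
        refine hTX.trans (Real.rpow_le_rpow_of_exponent_le hXr ?_)
        have : 0 < 1 / (2 * a) := by positivity
        linarith
      exact mul_le_mul h6 h7 (Real.sqrt_nonneg _) (by norm_num)
    calc (X:ℝ) ^ c * √(2 * T : ℝ) ≤ (X:ℝ) ^ c * (2 * (X:ℝ) ^ (3 / 4 : ℝ)) :=
          mul_le_mul_of_nonneg_left h5 (by positivity)
      _ = 2 * (X:ℝ) ^ (c + 3 / 4) := by rw [Real.rpow_add hXp]; ring
      _ ≤ 2 * (X:ℝ) ^ (1 - 3 * c / 4) := by
          have := Real.rpow_le_rpow_of_exponent_le hXr (show c + 3 / 4 ≤ 1 - 3 * c / 4 by linarith)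
          linarith
  have p4 : 9 * (X:ℝ) ^ (1 - 3 * c / 4) ≤ ε * WS z X ρ := by
    have h5 := hX5 X hXe
    rw [Real.norm_of_nonneg (by positivity), Real.norm_of_nonneg (by positivity),
      Real.rpow_natCast] at h5
    have h6 : (9 * Qz z : ℝ) * Real.log X ^ C0 ≤ ε * (X:ℝ) ^ (3 * c / 4) := by
      calc (9 * Qz z : ℝ) * Real.log X ^ C0
          ≤ (9 * Qz z : ℝ) * (ε / (9 * Qz z) * (X:ℝ) ^ (3 * c / 4)) := by gcongr
        _ = _ := by field_simp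
    have h7 := hρ.low
    have h8 : ε * (X / Qz z * (Real.log X ^ C0)⁻¹) ≤ ε * WS z X ρ := by
      unfold WS
      gcongr
    refine le_trans ?_ h8
    have hlC : 0 < Real.log X ^ C0 := by positivity
    have e : (X:ℝ) = (X:ℝ) ^ (1 - 3 * c / 4) * (X:ℝ) ^ (3 * c / 4) := by
      rw [← Real.rpow_add hXp]
      have : 1 - 3 * c / 4 + 3 * c / 4 = (1:ℝ) := by ring
      rw [this, Real.rpow_one]
    have e2 : ε * (X / Qz z * (Real.log X ^ C0)⁻¹) =
        (X:ℝ) ^ (1 - 3 * c / 4) * ((ε * (X:ℝ) ^ (3 * c / 4)) / (Qz z * Real.log X ^ C0)) := by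
      have e4 : (X:ℝ) ^ (1 - 3 * c / 4) *
          ((ε * (X:ℝ) ^ (3 * c / 4)) / (Qz z * Real.log X ^ C0)) =
          ε * (((X:ℝ) ^ (1 - 3 * c / 4) * (X:ℝ) ^ (3 * c / 4)) / Qz z *
            (Real.log X ^ C0)⁻¹) := by field_simp
      rw [e4, ← e]
    rw [e2, mul_comm (9:ℝ)]
    apply mul_le_mul_of_nonneg_left _ (by positivity)
    rw [le_div_iff₀ (by positivity)]
    linarith
  rw [hexp]
  have e3 : (1 - ε - 2 * C0 / (z:ℝ)) * WS z X ρ =
    WS z X ρ - ε * WS z X ρ - 2 * C0 / z * WS z X ρ := by ring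
  rw [e3]
  linarith

end Pool.Agent.H52.SH.M1L
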