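import Pool.Agent.H52.SH.Stubs
import Pool.Agent.H52.V.S8.H38R2.CG2.NB

/-!
Task SH-NB (helper4): the number of products, sharp exponent.
-/

set_option autoImplicit false

namespace Pool.Agent.H52.SH

open Finset Filter NumberField Pool.Agent.H38R2.CG Pool.Agent.H38R2.CG2
open scoped Classical

namespace NBs

theorem th_id {a : ℝ} (ha : 2 < a) : th a * (a - 1) / a = 3 / 4 - 1 / (2 * a) := by
  unfold th cc
  have h5 : a ≠ 0 := by linarith
  have h6 : a - 1 ≠ 0 := by linarith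
  field_simp
  ring

/-- the pure inequality: `l = log X`, `L = log l`, `Λ = log y`, `n` the number of primes, `k` the
number of factors -/
theorem core {a ε l L Λ y : ℝ} {k n : ℕ} (ha : 2 < a) (hε : 0 < ε) (hl : 100 ≤ l)
    (hL : L = Real.log l) (hL4 : 4 ≤ L) (h6 : 4 / (a * ε) ≤ L)
    (hy2 : l ^ a / 5 ≤ y) (hΛ1 : Λ ≤ a * L) (hΛ0 : 0 < Λ) (hΛl : Λ ≤ l)
    (hn1 : 9 / 10 * y / Λ ≤ n)
    (hk1 : 1 ≤ k) (hk2 : th a * l / Λ ≤ k) (hk3 : (k : ℝ) ≤ th a * l / Λ + 1)
    (h2k : 2 * k ≤ n) :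
    Real.exp (l * (3 / 4 - 1 / (2 * a) - ε)) ≤ (n.choose k : ℝ) := by
  obtain ⟨hcc, hth1, hth2, -⟩ := NBh.th_bounds ha
  have hl0 : 0 < l := by linarith
  have hq : 0 < (9 / 200 : ℝ) * l ^ (a - 1) := by positivity
  have hqk : (9 / 200 : ℝ) * l ^ (a - 1) * k ≤ (n : ℝ) / 2 := by
    have h12 : (k : ℝ) * Λ ≤ 2 * l := by
      have h13 : (k : ℝ) * Λ ≤ (th a * l / Λ + 1) * Λ := mul_le_mul_of_nonneg_right hk3 hΛ0.le
      have h14 : (th a * l / Λ + 1) * Λ = th a * l + Λ := by field_simp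
      have h15 : th a * l ≤ 1 * l := mul_le_mul_of_nonneg_right hth2.le hl0.le
      linarith
    have h15 : (9 / 50 : ℝ) * l ^ a / Λ ≤ n := by
      refine le_trans ?_ hn1
      apply div_le_div_of_nonneg_right _ hΛ0.le
      linarith
    rw [div_le_iff₀ hΛ0] at h15
    have h16 : l ^ a = l ^ (a - 1) * l := by
      rw [← Real.rpow_add_one hl0.ne']
      congr 1
      ring
    rw [h16] at h15
    have h18 : 0 ≤ (9 / 100 : ℝ) * l ^ (a - 1) := by positivity
    have h17 : (9 / 100 : ℝ) * l ^ (a - 1) * (k * Λ) ≤ n * Λ := by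
      have h19 := mul_le_mul_of_nonneg_left h12 h18
      have h20 : (9 / 100 : ℝ) * l ^ (a - 1) * (2 * l) = 9 / 50 * (l ^ (a - 1) * l) := by ring
      rw [h20] at h19
      exact h19.trans h15
    have h20 : (9 / 100 : ℝ) * l ^ (a - 1) * k ≤ n := by
      have h21 : ((9 / 100 : ℝ) * l ^ (a - 1) * k) * Λ ≤ n * Λ := by
        calc ((9 / 100 : ℝ) * l ^ (a - 1) * k) * Λ = (9 / 100 : ℝ) * l ^ (a - 1) * (k * Λ) := by ring
          _ ≤ _ := h17
      exact le_of_mul_le_mul_right h21 hΛ0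
    linarith
  refine le_trans ?_ (NBh.choose_bound hk1 h2k hq hqk)
  have haL : 0 < a * L := by
    have : 0 < a := by linarith
    have : 0 < L := by linarith
    positivity
  have hqe : Real.exp ((a - 1) * L - 4) ≤ (9 / 200 : ℝ) * l ^ (a - 1) := by
    have h12 : l ^ (a - 1) = Real.exp ((a - 1) * L) := by
      rw [Real.rpow_def_of_pos hl0, hL]
      ring_nf
    rw [h12, Real.exp_sub, div_le_iff₀ (Real.exp_pos _)]
    have h13 : 1 ≤ 9 / 200 * Real.exp 4 := by
      have h14 := Real.exp_one_gt_d9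
      have h15 : Real.exp 4 = (Real.exp 1) ^ 4 := by
        rw [← Real.exp_nat_mul]; norm_num
      rw [h15]
      have h16 : (2.7 : ℝ) ^ 4 ≤ (Real.exp 1) ^ 4 :=
        pow_le_pow_left₀ (by norm_num) (by linarith) 4
      norm_num at h16 ⊢
      linarith
    have h17 := Real.exp_pos ((a - 1) * L)
    calc Real.exp ((a - 1) * L) = Real.exp ((a - 1) * L) * 1 := by ring
      _ ≤ Real.exp ((a - 1) * L) * (9 / 200 * Real.exp 4) := mul_le_mul_of_nonneg_left h13 h17.le
      _ = _ := by ring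
  have hpos4 : 0 ≤ (a - 1) * L - 4 := by
    have h1 : 1 * L ≤ (a - 1) * L := mul_le_mul_of_nonneg_right (by linarith) (by linarith)
    linarith
  calc Real.exp (l * (3 / 4 - 1 / (2 * a) - ε)) ≤ Real.exp ((k : ℝ) * ((a - 1) * L - 4)) := by
        apply Real.exp_le_exp.mpr
        have h12 : th a * l / (a * L) ≤ k := by
          refine le_trans ?_ hk2
          apply div_le_div_of_nonneg_left _ hΛ0 hΛ1
          have : 0 ≤ th a := by linarith
          positivity
        have h13 : th a * l / (a * L) * ((a - 1) * L - 4) ≤ k * ((a - 1) * L - 4) :=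
          mul_le_mul_of_nonneg_right h12 hpos4
        refine le_trans ?_ h13
        have h14 : th a * l / (a * L) * ((a - 1) * L - 4) =
            l * (th a * (a - 1) / a - th a * (4 / (a * L))) := by
          have : L ≠ 0 := by linarith
          have : a ≠ 0 := by linarith
          field_simp
        rw [h14, th_id ha]
        apply mul_le_mul_of_nonneg_left _ hl0.le
        have h15 : 4 / (a * L) ≤ ε := by
          rw [div_le_iff₀ haL]
          rw [div_le_iff₀ (by positivity)] at h6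
          linarith
        have h16 : th a * (4 / (a * L)) ≤ 1 * ε := by
          apply mul_le_mul hth2.le h15 (by positivity) (by norm_num)
        linarith
    _ = (Real.exp ((a - 1) * L - 4)) ^ k := by
        rw [← Real.exp_nat_mul]
    _ ≤ _ := pow_le_pow_left₀ (Real.exp_pos _).le hqe k

end NBs

/-- SH-NB -/
theorem T_NB : P_NB → Q_NB := by
  rintro hP a ha ε hε
  have hP2 := T2_NB hP
  obtain ⟨X1, hX1⟩ := hP2 a ha 1 one_pos
  obtain ⟨-, y0, hy0⟩ := hP
  obtain ⟨hcc, hth1, hth2, -⟩ := NBh.th_bounds ha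
  have ha0 : 0 < a := by linarith
  have hlog : Tendsto (fun X : ℕ => Real.log X) atTop atTop :=
    Real.tendsto_log_atTop.comp tendsto_natCast_atTop_atTop
  have e2 := NBh.ev_log a 1 (by norm_num)
  refine eventually_atTop.mp ?_
  filter_upwards [hlog.eventually e2, hlog.eventually (NBh.ev_loglog (4 / (a * ε))),
    hlog.eventually (NBh.ev_loglog 4), hlog.eventually_ge_atTop 100,
    hlog.eventually_ge_atTop (5 * (y0 : ℝ)), eventually_ge_atTop 1,
    eventually_ge_atTop X1] with X h2 h6 h7 h8 h10 h11 h12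
  have hc7 : 4 * (kA a X) ^ 2 ≤ (PA a X).card := (hX1 X h12).2.2.2.2.2.2.1
  obtain ⟨l, hl⟩ : ∃ l, l = Real.log X := ⟨_, rfl⟩
  obtain ⟨L, hL⟩ : ∃ L, L = Real.log l := ⟨_, rfl⟩
  rw [← hl] at h2 h6 h7 h8 h10
  rw [← hL] at h2 h6 h7
  rw [Real.rpow_one] at h2
  have hl0 : 0 < l := by linarith
  have hX0 : (0 : ℝ) < X := by exact_mod_cast h11
  have hXr : ∀ x : ℝ, (X : ℝ) ^ x = Real.exp (l * x) := by
    intro x
    rw [Real.rpow_def_of_pos hX0, hl]
  obtain ⟨y, hy⟩ : ∃ y, y = yA a X := ⟨_, rfl⟩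
  have hlaexp : l ^ a = Real.exp (a * L) := by
    rw [Real.rpow_def_of_pos hl0, hL]
    ring_nf
  have hla : l * l ≤ l ^ a := by
    have : l ^ (2:ℝ) ≤ l ^ a := Real.rpow_le_rpow_of_exponent_le (by linarith) ha.le
    rw [Real.rpow_two] at this
    nlinarith
  have hy1 : (y : ℝ) ≤ l ^ a / 4 := by
    rw [hy, yA, ← hl]
    exact Nat.floor_le (by positivity)
  have hy2 : l ^ a / 5 ≤ y := by
    have : l ^ a / 4 - 1 < y := by
      rw [hy, yA, ← hl]
      exact Nat.sub_one_lt_floor _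
    nlinarith
  have hypos : (0 : ℝ) < y := by
    have : 0 < l ^ a / 5 := by positivity
    linarith
  have hyy0 : y0 ≤ y := by
    have h13 : (y0 : ℝ) ≤ y := by
      have : (0:ℝ) ≤ y0 := Nat.cast_nonneg _
      nlinarith
    exact_mod_cast h13
  obtain ⟨hn1, hn2⟩ := hy0 y hyy0
  obtain ⟨Λ, hΛ⟩ : ∃ Λ, Λ = Real.log y := ⟨_, rfl⟩
  have hΛ1 : Λ ≤ a * L := by
    have : Real.log y ≤ Real.log (Real.exp (a * L)) := by
      apply Real.log_le_log hypos
      rw [← hlaexp]
      have : 0 < l ^ a := by positivity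
      linarith
    rw [Real.log_exp] at this
    rw [hΛ]; exact this
  have hy3 : Real.exp 1 < y := by
    have h13 := Real.exp_one_lt_d9
    nlinarith
  have hΛ0 : 0 < Λ := by
    rw [hΛ]
    apply Real.log_pos
    have h13 := Real.exp_one_gt_d9
    linarith
  have hΛl : Λ ≤ l := by linarith
  rw [← hΛ] at hn1
  obtain ⟨k, hk⟩ : ∃ k, k = kA a X := ⟨_, rfl⟩
  have hk1 : 1 ≤ k := by rw [hk, kA]; omega
  have hk2 : th a * l / Λ ≤ k := by
    rw [hk, kA, ← hy, ← hl, ← hΛ]
    push_cast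
    exact (Nat.lt_floor_add_one _).le
  have hk3 : (k : ℝ) ≤ th a * l / Λ + 1 := by
    rw [hk, kA, ← hy, ← hl, ← hΛ]
    push_cast
    have h0 : 0 ≤ th a * l / Λ := by
      have : 0 ≤ th a := by linarith
      positivity
    have := Nat.floor_le h0
    linarith
  obtain ⟨n, hn⟩ : ∃ n, n = (PA a X).card := ⟨_, rfl⟩
  have hn' : (PP y).card = n := by rw [hn, PA, hy]
  rw [hn'] at hn1
  rw [← hn, ← hk] at hc7
  have h2k : 2 * k ≤ n := by nlinarith
  rw [NA, CA, ← hk, ← hn, hXr]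
  exact NBs.core ha hε h8 hL h7 h6 hy2 hΛ1 hΛ0 hΛl hn1 hk1 hk2 hk3 h2k

end Pool.Agent.H52.SH
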