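import Pool.Agent.H52.SH.Stubs2

/-! Project SH: few exceptional discriminants without prime factor in `Q`. -/

set_option autoImplicit false

namespace Pool.Agent.H52.SH.SQ

open Finset Filter NumberField Pool.Agent.H38R2.CG Pool.Agent.H38R2.CG2 Pool.Agent.H38R2.CG3
open Pool.Agent.H38R2.CG.AS1h Pool.Agent.H38R2.CG.FINh Pool.Agent.TH866.SR
open Pool.Agent.H52.SH
open scoped Classical

theorem main (hBF : P2_BF) (hHB : P2_HB) (hHD : P2_HD) (hCH : P2_CH) (hBHa : P2_BHa)
    (hAS : Q_AS0) : Q_SQ := by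
  intro a ha κ hκ t0 ht0 ε hε
  have ha1 : 0 < a - 1 := by linarith
  have hcc0 : 0 < cc a := by
    unfold cc
    exact div_pos (by linarith) (by linarith)
  have hcc1 : cc a ≤ 1 / 2 := by
    unfold cc
    rw [div_le_iff₀ (by linarith)]
    linarith
  obtain ⟨C0, hC0, hB⟩ := BHq hBF hHB hHD hCH hBHa (cc a) hcc0 (by linarith)
  have hC0' : (1 : ℝ) ≤ C0 := by exact_mod_cast hC0
  obtain ⟨z0, hz0⟩ := hAS a ha κ hκ t0 ht0 C0 hC0 (ε / C0) (by positivity)
  set z := max 2 z0 with hz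
  have hz2 : 2 ≤ z := le_max_left _ _
  obtain ⟨η1, hη1, hη11, H⟩ := hz0 z (le_max_right _ _)
  obtain ⟨XB, hXB⟩ := hB z hz2 a ha
  refine ⟨η1, hη1, hη11, ?_⟩
  have H' : ∀ r : ℕ, ∃ X0 : ℕ, ∀ X ≥ X0, ∀ T : ℕ, RG a κ X T → (X : ℝ) ≤ η1 * T →
      ∀ ρ : ℕ → ℝ, SWt z X (PA a X) (cc a) C0 ρ → FundRes z r →
      ∑ D ∈ (FT z r X T).filter (fun D => Bd a t0 X D), wt ρ D ≤ ε / C0 * WS z X ρ := by
    intro r
    by_cases hr : FundRes z r
    · obtain ⟨X0, hX0⟩ := H r hr
      exact ⟨X0, fun X hX T hT hXT ρ hρ _ => hX0 X hX T hT hXT ρ hρ⟩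
    · exact ⟨0, fun X _ T _ _ ρ _ hr' => absurd hr' hr⟩
  choose X0 hX0 using H'
  refine ⟨max (max ((Finset.range (Qz z)).sup X0) XB) 17, ?_⟩
  intro X hX T hRG hXT Q
  have hX1 : (Finset.range (Qz z)).sup X0 ≤ X :=
    (le_max_left _ _).trans ((le_max_left _ _).trans hX)
  have hX2 : XB ≤ X := (le_max_right _ _).trans ((le_max_left _ _).trans hX)
  have hX3 : 17 ≤ X := (le_max_right _ _).trans hX
  obtain ⟨hρ, hρ1, hGG⟩ := hXB X hX2 Q
  set ρ := rq Q z a X (cc a) with hρdef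
  have hX17 : (17 : ℝ) ≤ X := by exact_mod_cast hX3
  have hlog : 0 < Real.log X := Real.log_pos (by linarith)
  have hGpos : 0 ≤ GG X ρ := le_trans (by positivity) hρ.low
  set S := (Finset.Ioc T (T + X)).filter (fun D =>
    (∀ q ∈ Q, q.Prime → 3 ≤ q → ¬ q ∣ D) ∧ IsFund D ∧ Bd a t0 X D) with hS
  have hcard : S.card = ∑ r ∈ Finset.range (Qz z), (S.filter (fun D => D % Qz z = r)).card := by
    apply Finset.card_eq_sum_card_fiberwise
    intro D _
    simp only [Finset.coe_range, Set.mem_Iio]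
    exact Nat.mod_lt _ (AS1h.Qz_pos z)
  have hQ : (0 : ℝ) < Qz z := by exact_mod_cast AS1h.Qz_pos z
  have hW : 0 ≤ ε / C0 * WS z X ρ := by
    unfold WS
    positivity
  have hle : ∀ r ∈ Finset.range (Qz z),
      ((S.filter (fun D => D % Qz z = r)).card : ℝ) ≤
        if (∀ q ∈ (Finset.Icc 3 z).filter (fun q => q.Prime ∧ q ∈ Q), ¬ q ∣ r)
          then ε / C0 * WS z X ρ else 0 := by
    intro r hr
    by_cases hfr : FundRes z r ∧
        ∀ q ∈ (Finset.Icc 3 z).filter (fun q => q.Prime ∧ q ∈ Q), ¬ q ∣ r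
    · rw [if_pos hfr.2]
      refine le_trans ?_ (hX0 r X (le_trans (Finset.le_sup hr) hX1) T hRG hXT ρ hρ hfr.1)
      have hsub : (S.filter (fun D => D % Qz z = r)) ⊆
          ((FT z r X T).filter (fun D => Bd a t0 X D)) := by
        intro D hD
        simp only [hS, FT, DT, Finset.mem_filter] at hD ⊢
        exact ⟨⟨⟨hD.1.1, hD.2⟩, hD.1.2.2.1⟩, hD.1.2.2.2⟩
      have e1 : ((S.filter (fun D => D % Qz z = r)).card : ℝ) =
          ∑ D ∈ S.filter (fun D => D % Qz z = r), wt ρ D := by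
        rw [Finset.sum_congr rfl (g := fun _ => (1 : ℝ)), Finset.sum_const, nsmul_eq_mul, mul_one]
        intro D hD
        simp only [hS, Finset.mem_filter, Finset.mem_Ioc] at hD
        exact wtq_one (by omega) hcc0 hρ hρ1 (by omega) hD.1.2.1
      rw [e1]
      refine Finset.sum_le_sum_of_subset_of_nonneg hsub ?_
      intro D hD _
      simp only [FT, DT, Finset.mem_filter, Finset.mem_Ioc] at hD
      exact APh.wt_nonneg (by omega) (by linarith) hρ D (by omega)
    · have hemp : (S.filter (fun D => D % Qz z = r)) = ∅ := by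
        rw [Finset.filter_eq_empty_iff]
        intro D hD hDr
        apply hfr
        simp only [hS, Finset.mem_filter, Finset.mem_Ioc] at hD
        rw [← hDr]
        refine ⟨AS1h.fundRes z D hD.2.2.1, ?_⟩
        intro q hq hqd
        rw [Finset.mem_filter, Finset.mem_Icc] at hq
        have hqQ : q ∣ Qz z := by
          unfold Qz
          exact Dvd.dvd.mul_left ((dvd_pow_self q (by norm_num)).trans
            (Finset.dvd_prod_of_mem (fun l => l ^ 2)
              (Finset.mem_filter.2 ⟨Finset.mem_Icc.2 hq.1, hq.2.1⟩))) _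
        exact hD.2.1 q hq.2.2 hq.2.1 hq.1.1 ((Nat.dvd_mod_iff hqQ).1 hqd)
      rw [hemp, Finset.card_empty, Nat.cast_zero]
      split_ifs
      · exact hW
      · exact le_rfl
  rw [hcard]
  push_cast
  refine le_trans (Finset.sum_le_sum hle) ?_
  rw [← Finset.sum_filter, Finset.sum_const, nsmul_eq_mul]
  have hRC' := rcq Q z
  refine (le_of_eq (congrArg (fun t : ℝ => t * (ε / C0 * WS z X ρ)) hRC')).trans ?_
  show (Qz z : ℝ) * pq Q z * (ε / C0 * WS z X ρ) ≤ ε * X * pq Q X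
  unfold WS
  have e2 : (Qz z : ℝ) * pq Q z * (ε / C0 * (X / Qz z * GG X ρ)) = ε / C0 * X *
        (GG X ρ * pq Q z) := by
    field_simp
  rw [e2]
  calc ε / C0 * X * (GG X ρ * pq Q z)
      ≤ ε / C0 * X * (C0 * pq Q X) :=
        mul_le_mul_of_nonneg_left hGG (by positivity)
    _ = ε * X * pq Q X := by
        field_simp

end Pool.Agent.H52.SH.SQ
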