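import Pool.Agent.H52.SH.Stubs
import Pool.Agent.H52.V.S8.H38R2.CG2.V1

/-!
# SH-V1: cancellation of Jacobi symbols with weights in short intervals
-/

set_option autoImplicit false

namespace Pool.Agent.H52.SH.V1

open Finset Filter NumberField Pool.Agent.H38R2.CG Pool.Agent.H38R2.CG2 Pool.Agent.H52.SH
open scoped Classical

/-- the multiples of `k` in a short interval -/
lemma cnt (k T X : ℕ) (hk : 0 < k) :
    (((Ioc T (T + X)).filter (fun D => k ∣ D)).card : ℝ) ≤ X * (k : ℝ)⁻¹ + 1 := by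
  have h0 : (Ioc 0 (T + X)).filter (fun D => k ∣ D) =
      (Ioc 0 T).filter (fun D => k ∣ D) ∪ (Ioc T (T + X)).filter (fun D => k ∣ D) := by
    rw [← Finset.filter_union, Finset.Ioc_union_Ioc_eq_Ioc (Nat.zero_le _) (Nat.le_add_right _ _)]
  have h1 : Disjoint ((Ioc 0 T).filter (fun D => k ∣ D))
      ((Ioc T (T + X)).filter (fun D => k ∣ D)) := by
    apply Finset.disjoint_filter_filter
    rw [Finset.disjoint_left]
    intro a ha hb
    rw [mem_Ioc] at ha hb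
    omega
  have h2 := congrArg Finset.card h0
  rw [Finset.card_union_of_disjoint h1, Nat.Ioc_filter_dvd_card_eq_div,
    Nat.Ioc_filter_dvd_card_eq_div, Nat.add_div hk] at h2
  have h3 : ((Ioc T (T + X)).filter (fun D => k ∣ D)).card ≤ X / k + 1 := by
    split_ifs at h2 <;> omega
  have h4 : ((X / k : ℕ) : ℝ) ≤ (X : ℝ) / (k : ℝ) := Nat.cast_div_le
  calc (((Ioc T (T + X)).filter (fun D => k ∣ D)).card : ℝ) ≤ ((X / k + 1 : ℕ) : ℝ) := by
        exact_mod_cast h3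
    _ = ((X / k : ℕ) : ℝ) + 1 := by push_cast; ring
    _ ≤ X * (k : ℝ)⁻¹ + 1 := by rw [← div_eq_mul_inv]; linarith

lemma k_bound2 (Q r k X m T : ℕ) (hk : 1 ≤ k) :
    |∑ D ∈ ((Ioc T (T + X)).filter (fun D => D % Q = r)).filter (fun D => k ∣ D),
      ((jacobiSym (D : ℤ) m : ℤ) : ℝ)| ≤ X * (k : ℝ)⁻¹ + 1 := by
  refine (Finset.abs_sum_le_sum_abs _ _).trans ?_
  refine (Finset.sum_le_card_nsmul _ _ 1 (fun D _ => LM2h.abs_jac _ _)).trans ?_
  rw [nsmul_eq_mul, mul_one]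
  have h1 : (((Ioc T (T + X)).filter (fun D => D % Q = r)).filter (fun D => k ∣ D)).card ≤
      ((Ioc T (T + X)).filter (fun D => k ∣ D)).card := by
    apply Finset.card_le_card
    intro D hD
    rw [mem_filter, mem_filter] at hD
    rw [mem_filter]
    exact ⟨hD.1.1, hD.2⟩
  refine le_trans ?_ (cnt k T X hk)
  exact_mod_cast h1

/-- opening the condition of being fundamental -/
lemma fsum {z r X T : ℕ} (hr : FundRes z r) (hT : 1 ≤ T) (hXT : X ≤ T) (f : ℕ → ℝ) :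
    ∑ D ∈ FT z r X T, f D =
      ∑ e ∈ (Icc 1 (Nat.sqrt (2 * T))).filter (fun e => e.Coprime (Qz z)),
        ((ArithmeticFunction.moebius e : ℤ) : ℝ) *
        ∑ D ∈ ((Ioc T (T + X)).filter (fun D => D % Qz z = r)).filter (fun D => e ^ 2 ∣ D),
          f D := by
  unfold FT DT
  rw [Finset.sum_filter]
  have h1 : ∀ D ∈ (Ioc T (T + X)).filter (fun D => D % Qz z = r),
      (if IsFund D then f D else 0) =
      ∑ e ∈ (Icc 1 (Nat.sqrt (2 * T))).filter (fun e => e.Coprime (Qz z)),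
        if e ^ 2 ∣ D then ((ArithmeticFunction.moebius e : ℤ) : ℝ) * f D else 0 := by
    intro D hD
    rw [mem_filter, mem_Ioc] at hD
    have h2 := LM2h.isFund_iff hr hD.2 (by omega)
    have h3 := LM2h.moebius_id (Qz z) D (Nat.sqrt (2 * T)) (by omega) (fun e he => by
      have h4 := Nat.le_of_dvd (by omega) he
      rw [Nat.le_sqrt']
      omega)
    rw [← Finset.sum_filter, ← Finset.sum_mul, Finset.filter_filter]
    have h6 : (∑ e ∈ (Icc 1 (Nat.sqrt (2 * T))).filter (fun e => e.Coprime (Qz z) ∧ e ^ 2 ∣ D),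
        ((ArithmeticFunction.moebius e : ℤ) : ℝ)) =
        (((if (∀ l : ℕ, l.Prime → ¬ l ∣ Qz z → ¬ l ^ 2 ∣ D) then 1 else 0 : ℤ)) : ℝ) := by
      rw [← h3]
      push_cast
      rfl
    rw [h6]
    by_cases h7 : IsFund D
    · rw [if_pos h7, if_pos (h2.1 h7)]
      norm_num
    · rw [if_neg h7, if_neg (fun h8 => h7 (h2.2 h8))]
      norm_num
  rw [Finset.sum_congr rfl h1, Finset.sum_comm]
  apply Finset.sum_congr rfl
  intro e _
  rw [Finset.mul_sum, Finset.sum_filter (fun D => e ^ 2 ∣ D)]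

open V1h in
theorem main : P_PV → P2_WT → Q_V1 := by
  rintro ⟨C, hC, hPV⟩ hWT a ha κ hκ z r hr C0
  have hc0 := cc_pos ha
  have hc1 := cc_lt ha
  have hth : th a = 1 - 8 * cc a := rfl
  obtain ⟨X0, hX0⟩ := growth (2 * C) (cc a) (by positivity) hc0
  refine ⟨X0, fun X hX T' hRG ρ hρ m hm1 hmQ hsq => ?_⟩
  obtain ⟨hX2, hgrow⟩ := hX0 X hX
  obtain ⟨hXT, hsT⟩ := hRG
  obtain ⟨c, hcd⟩ : ∃ c, c = cc a := ⟨_, rfl⟩
  rw [← hcd] at hc0 hc1 hth hgrow hρ
  rw [← hcd, hth]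
  have hXr : (2 : ℝ) ≤ X := by exact_mod_cast hX2
  have hodd : Odd m := by
    have h2Q : 2 ∣ Qz z := dvd_trans (by norm_num) (LM2h.dvd16 z)
    have := Nat.Coprime.coprime_dvd_right h2Q hmQ
    exact Nat.coprime_two_right.1 this
  have hrQ := hr.1
  have hX0' : (0 : ℝ) < X := by linarith
  have hX1' : (1 : ℝ) ≤ X := by linarith
  have hlogX : 0 ≤ Real.log (X : ℝ) := Real.log_nonneg hX1'
  have hm0' : (0 : ℝ) < m := by exact_mod_cast hm1
  have hlogm : 0 ≤ Real.log (m : ℝ) := Real.log_natCast_nonneg m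
  obtain ⟨S, hS⟩ : ∃ S, S = (Ioc T' (T' + X)).filter (fun D => D % Qz z = r) := ⟨_, rfl⟩
  have hS1 : ∀ D ∈ S, 1 ≤ D := by
    intro D hD
    rw [hS, mem_filter, mem_Ioc] at hD
    omega
  have hDD : DT z r X T' = S := by
    unfold DT
    rw [hS]
  have hw : ∀ D ∈ S, wt ρ D = ∑ d ∈ (Finset.Icc 1 X).filter (fun d => d ∣ D), ρ d :=
    fun D hD => (hWT z X (PA a X) c C0 ρ (by omega) (by linarith) hρ D (hS1 D hD)).2
  obtain ⟨G, hG⟩ : ∃ G : ℝ, G = C * √(m : ℝ) * Real.log m := ⟨_, rfl⟩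
  have hG0 : 0 ≤ G := by rw [hG]; positivity
  have hkb : ∀ k, 1 ≤ k → k.Coprime (Qz z) →
      |∑ D ∈ S.filter (fun D => k ∣ D), ((jacobiSym (D : ℤ) m : ℤ) : ℝ)| ≤ G := by
    intro k hk hkQ
    rw [hS, hG]
    exact k_bound C hC hPV m hodd hsq (Qz z) r k hrQ hk hkQ hmQ T' (T' + X)
      (Nat.le_add_right _ _)
  have hkb2 : ∀ k, 1 ≤ k →
      |∑ D ∈ S.filter (fun D => k ∣ D), ((jacobiSym (D : ℤ) m : ℤ) : ℝ)| ≤
        X * (k : ℝ)⁻¹ + 1 := by
    intro k hk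
    rw [hS]
    exact k_bound2 (Qz z) r k X m T' hk
  have hXc : (0 : ℝ) < (X : ℝ) ^ c := by positivity
  constructor
  · intro hmX
    have hsm : √(m : ℝ) ≤ (X : ℝ) ^ (1 - 7 * c) := by
      rw [Real.sqrt_le_left (by positivity)]
      refine hmX.trans (le_of_eq ?_)
      rw [← Real.rpow_natCast, ← Real.rpow_mul hX0'.le]
      congr 1
      push_cast
      ring
    have hlm : Real.log m ≤ 2 * Real.log X := by
      have h1 := Real.log_le_log hm0' hmX
      rw [Real.log_rpow hX0'] at h1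
      refine h1.trans (mul_le_mul_of_nonneg_right (by linarith) hlogX)
    have hGX : G ≤ (X : ℝ) ^ (1 - 7 * c) * (2 * C * Real.log X) := by
      rw [hG]
      calc C * √(m : ℝ) * Real.log m ≤ C * (X : ℝ) ^ (1 - 7 * c) * (2 * Real.log X) := by
            gcongr
        _ = _ := by ring
    have h1 : ∑ D ∈ DT z r X T', wt ρ D * ((jacobiSym (D : ℤ) m : ℤ) : ℝ) =
        ∑ d ∈ Icc 1 X, ρ d * ∑ D ∈ S.filter (fun D => Nat.lcm 1 d ∣ D),
          ((jacobiSym (D : ℤ) m : ℤ) : ℝ) := by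
      rw [← wsum S hw (fun D => ((jacobiSym (D : ℤ) m : ℤ) : ℝ)) 1, hDD]
      refine Finset.sum_congr ?_ fun _ _ => rfl
      rw [Finset.filter_true_of_mem]
      intro D _
      exact one_dvd D
    rw [h1]
    refine (dsum hρ _ G hG0 ?_).trans ?_
    · intro d hd hdQ
      rw [Nat.lcm_one_left]
      exact hkb d hd hdQ
    · calc (X : ℝ) ^ c * G ≤ (X : ℝ) ^ c * ((X : ℝ) ^ (1 - 7 * c) * (2 * C * Real.log X)) :=
            mul_le_mul_of_nonneg_left hGX hXc.le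
        _ ≤ (X : ℝ) ^ c * ((X : ℝ) ^ (1 - 7 * c) * (X : ℝ) ^ c) := by
            gcongr
            linarith
        _ = (X : ℝ) ^ (1 - 5 * c) := by
            rw [← Real.rpow_add hX0', ← Real.rpow_add hX0']
            congr 1
            ring
        _ ≤ (X : ℝ) ^ (1 - c) := Real.rpow_le_rpow_of_exponent_le hX1' (by linarith)
  · intro hmX
    have hsm : √(m : ℝ) ≤ (X : ℝ) ^ (1 / 2 - 3 * c) := by
      rw [Real.sqrt_le_left (by positivity)]
      refine hmX.trans (le_of_eq ?_)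
      rw [← Real.rpow_natCast, ← Real.rpow_mul hX0'.le]
      congr 1
      push_cast
      ring
    have hlm : Real.log m ≤ 2 * Real.log X := by
      have h1 := Real.log_le_log hm0' hmX
      rw [Real.log_rpow hX0'] at h1
      refine h1.trans (mul_le_mul_of_nonneg_right (by linarith) hlogX)
    have hGX : G ≤ (X : ℝ) ^ (1 / 2 - 3 * c) * (2 * C * Real.log X) := by
      rw [hG]
      calc C * √(m : ℝ) * Real.log m ≤ C * (X : ℝ) ^ (1 / 2 - 3 * c) * (2 * Real.log X) := by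
            gcongr
        _ = _ := by ring
    have hT1' : 1 ≤ T' := by omega
    rw [fsum hr hT1' hXT (fun D => wt ρ D * ((jacobiSym (D : ℤ) m : ℤ) : ℝ)), ← hS]
    obtain ⟨N, hN⟩ : ∃ N, N = Nat.sqrt (2 * T') := ⟨_, rfl⟩
    rw [← hN]
    obtain ⟨Y, hY⟩ : ∃ Y, Y = ⌊(X : ℝ) ^ (3 * c)⌋₊ := ⟨_, rfl⟩
    have hp1 : (1 : ℝ) ≤ (X : ℝ) ^ (3 * c) := Real.one_le_rpow hX1' (by linarith)
    have hY1 : 1 ≤ Y := by
      rw [hY]
      exact Nat.le_floor (by simpa using hp1)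
    have hYle : (Y : ℝ) ≤ (X : ℝ) ^ (3 * c) := by
      rw [hY]
      exact Nat.floor_le (by positivity)
    have hYge : (X : ℝ) ^ (3 * c) ≤ 2 * Y := by
      have h1 : (X : ℝ) ^ (3 * c) < Y + 1 := by
        rw [hY]
        exact Nat.lt_floor_add_one _
      have h2 : (1 : ℝ) ≤ Y := by exact_mod_cast hY1
      linarith
    have hYN : Y ≤ N := by
      rw [hN, Nat.le_sqrt']
      have h1 : (Y : ℝ) ^ 2 ≤ X := by
        calc (Y : ℝ) ^ 2 ≤ ((X : ℝ) ^ (3 * c)) ^ 2 := by gcongr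
          _ = (X : ℝ) ^ (6 * c) := by
              rw [← Real.rpow_natCast, ← Real.rpow_mul hX0'.le]
              congr 1
              push_cast
              ring
          _ ≤ (X : ℝ) ^ (1 : ℝ) := Real.rpow_le_rpow_of_exponent_le hX1' (by linarith)
          _ = X := Real.rpow_one _
      have h2 : Y ^ 2 ≤ X := by exact_mod_cast h1
      omega
    have hNle : (N : ℝ) ≤ 2 * (X : ℝ) ^ (1 - 3 * c) := by
      have h1 : N ^ 2 ≤ 2 * T' := by
        rw [hN]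
        exact Nat.sqrt_le' _
      have h2 : (N : ℝ) ^ 2 ≤ 2 * (T' : ℝ) := by exact_mod_cast h1
      have h3 : (N : ℝ) ≤ 2 * √(T' : ℝ) := by
        have h4 : (N : ℝ) ^ 2 ≤ (2 * √(T' : ℝ)) ^ 2 := by
          rw [mul_pow, Real.sq_sqrt (Nat.cast_nonneg _)]
          have : (0 : ℝ) ≤ T' := Nat.cast_nonneg _
          linarith
        exact le_of_sq_le_sq h4 (by positivity)
      have h5 : (X : ℝ) ^ (3 / 4 - 1 / (2 * a) - κ) ≤ (X : ℝ) ^ (1 - 3 * c) := by
        apply Real.rpow_le_rpow_of_exponent_le hX1'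
        have : 0 < 1 / (2 * a) := by positivity
        linarith
      linarith
    obtain ⟨T, hT⟩ : ∃ T : ℕ → ℝ, T = fun e => |∑ D ∈ S.filter (fun D => e ^ 2 ∣ D),
      wt ρ D * ((jacobiSym (D : ℤ) m : ℤ) : ℝ)| := ⟨_, rfl⟩
    have hTw : ∀ e, T e = |∑ d ∈ Icc 1 X, ρ d * ∑ D ∈ S.filter (fun D => Nat.lcm (e ^ 2) d ∣ D),
        ((jacobiSym (D : ℤ) m : ℤ) : ℝ)| := by
      intro e
      rw [hT]
      exact congrArg abs (wsum S hw (fun D => ((jacobiSym (D : ℤ) m : ℤ) : ℝ)) (e ^ 2))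
    have hT1 : ∀ e, 1 ≤ e → e.Coprime (Qz z) → T e ≤ (X : ℝ) ^ c * G := by
      intro e he heQ
      rw [hTw]
      refine dsum hρ _ G hG0 ?_
      intro d hd hdQ
      refine hkb _ (Nat.lcm_pos (pow_pos he 2) hd) ?_
      exact Nat.Coprime.coprime_dvd_left (Nat.lcm_dvd_mul _ _)
        (Nat.Coprime.mul_left (Nat.Coprime.pow_left 2 heQ) hdQ)
    have hT2 : ∀ e, 1 ≤ e → T e ≤ (X : ℝ) ^ c * (X * ((e : ℝ) ^ 2)⁻¹ + 1) := by
      intro e he
      rw [hTw]
      refine dsum hρ _ _ (by positivity) ?_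
      intro d hd hdQ
      have he2 : 0 < e ^ 2 := pow_pos he 2
      have h1 := hkb2 (Nat.lcm (e ^ 2) d) (Nat.lcm_pos he2 hd)
      refine h1.trans ?_
      refine add_le_add (mul_le_mul_of_nonneg_left ?_ (by positivity)) le_rfl
      have h2 : e ^ 2 ≤ Nat.lcm (e ^ 2) d :=
        Nat.le_of_dvd (Nat.lcm_pos he2 hd) (Nat.dvd_lcm_left _ _)
      have h3 : (e : ℝ) ^ 2 ≤ ((Nat.lcm (e ^ 2) d : ℕ) : ℝ) := by exact_mod_cast h2
      have h4 : (0 : ℝ) < (e : ℝ) ^ 2 := by exact_mod_cast he2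
      exact inv_anti₀ h4 h3
    have hT0 : ∀ e, 0 ≤ T e := fun e => by rw [hT]; exact abs_nonneg _
    have hb1 : |∑ e ∈ (Icc 1 N).filter (fun e => e.Coprime (Qz z)),
          ((ArithmeticFunction.moebius e : ℤ) : ℝ) *
          ∑ D ∈ S.filter (fun D => e ^ 2 ∣ D), wt ρ D * ((jacobiSym (D : ℤ) m : ℤ) : ℝ)| ≤
        ∑ e ∈ (Icc 1 N).filter (fun e => e.Coprime (Qz z)), T e := by
      refine (Finset.abs_sum_le_sum_abs _ _).trans ?_
      apply Finset.sum_le_sum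
      intro e _
      rw [abs_mul, hT]
      have h1 : |((ArithmeticFunction.moebius e : ℤ) : ℝ)| ≤ 1 := by
        exact_mod_cast ArithmeticFunction.abs_moebius_le_one
      calc _ ≤ 1 * |∑ D ∈ S.filter (fun D => e ^ 2 ∣ D),
              wt ρ D * ((jacobiSym (D : ℤ) m : ℤ) : ℝ)| :=
            mul_le_mul_of_nonneg_right h1 (abs_nonneg _)
        _ = _ := one_mul _
    refine hb1.trans ?_
    have hb2 : ∑ e ∈ (Icc 1 N).filter (fun e => e.Coprime (Qz z)), T e ≤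
        ∑ e ∈ Ioc 0 Y, (X : ℝ) ^ c * G +
          ∑ e ∈ Ioc Y N, (X : ℝ) ^ c * ((X : ℝ) * ((e : ℝ) ^ 2)⁻¹ + 1) := by
      have h1 : (Icc 1 N) = Ioc 0 Y ∪ Ioc Y N := by
        rw [Finset.Ioc_union_Ioc_eq_Ioc (Nat.zero_le _) hYN]
        rfl
      have h2 : Disjoint (Ioc 0 Y) (Ioc Y N) := by
        rw [Finset.disjoint_left]
        intro a ha hb
        rw [mem_Ioc] at ha hb
        omega
      rw [h1, Finset.filter_union, Finset.sum_union (Finset.disjoint_filter_filter h2)]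
      apply add_le_add
      · calc ∑ e ∈ (Ioc 0 Y).filter (fun e => e.Coprime (Qz z)), T e ≤
            ∑ e ∈ (Ioc 0 Y).filter (fun e => e.Coprime (Qz z)), (X : ℝ) ^ c * G := by
              apply Finset.sum_le_sum
              intro e he
              rw [mem_filter, mem_Ioc] at he
              exact hT1 e he.1.1 he.2
          _ ≤ ∑ e ∈ Ioc 0 Y, (X : ℝ) ^ c * G :=
              Finset.sum_le_sum_of_subset_of_nonneg (Finset.filter_subset _ _)
                (fun _ _ _ => mul_nonneg hXc.le hG0)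
      · calc ∑ e ∈ (Ioc Y N).filter (fun e => e.Coprime (Qz z)), T e ≤
            ∑ e ∈ (Ioc Y N).filter (fun e => e.Coprime (Qz z)),
              (X : ℝ) ^ c * ((X : ℝ) * ((e : ℝ) ^ 2)⁻¹ + 1) := by
              apply Finset.sum_le_sum
              intro e he
              rw [mem_filter, mem_Ioc] at he
              exact hT2 e (by omega)
          _ ≤ ∑ e ∈ Ioc Y N, (X : ℝ) ^ c * ((X : ℝ) * ((e : ℝ) ^ 2)⁻¹ + 1) :=
              Finset.sum_le_sum_of_subset_of_nonneg (Finset.filter_subset _ _)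
                (fun _ _ _ => by positivity)
    refine hb2.trans ?_
    rw [Finset.sum_const, Nat.card_Ioc, ← Finset.mul_sum, Finset.sum_add_distrib,
      ← Finset.mul_sum, nsmul_eq_mul, Nat.sub_zero, Finset.sum_const, Nat.card_Ioc,
      nsmul_eq_mul, mul_one]
    have hb3 : ∑ e ∈ Ioc Y N, ((e : ℝ) ^ 2)⁻¹ ≤ (Y : ℝ)⁻¹ := by
      refine (sum_Ioc_inv_sq_le_sub (by omega) hYN).trans ?_
      have : (0 : ℝ) ≤ ((N : ℕ) : ℝ)⁻¹ := by positivity
      linarith
    have hYpos : (0 : ℝ) < Y := by exact_mod_cast hY1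
    have hb4 : (X : ℝ) * ∑ e ∈ Ioc Y N, ((e : ℝ) ^ 2)⁻¹ ≤
        2 * (X : ℝ) ^ (1 - 3 * c) := by
      calc (X : ℝ) * ∑ e ∈ Ioc Y N, ((e : ℝ) ^ 2)⁻¹ ≤ (X : ℝ) * (Y : ℝ)⁻¹ :=
            mul_le_mul_of_nonneg_left hb3 (by positivity)
        _ ≤ 2 * (X : ℝ) ^ (1 - 3 * c) := by
            rw [← div_eq_mul_inv, div_le_iff₀ hYpos]
            have h1 : (X : ℝ) = (X : ℝ) ^ (1 - 3 * c) * (X : ℝ) ^ (3 * c) := by
              rw [← Real.rpow_add hX0']
              norm_num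
            have h2 : (0 : ℝ) < (X : ℝ) ^ (1 - 3 * c) := by positivity
            calc (X : ℝ) = ((X : ℝ) ^ (1 - 3 * c) * (X : ℝ) ^ (3 * c)) := h1
              _ ≤ ((X : ℝ) ^ (1 - 3 * c) * (2 * Y)) :=
                  mul_le_mul_of_nonneg_left hYge h2.le
              _ = 2 * (X : ℝ) ^ (1 - 3 * c) * Y := by ring
    have hb4' : ((N - Y : ℕ) : ℝ) ≤ 2 * (X : ℝ) ^ (1 - 3 * c) := by
      have : ((N - Y : ℕ) : ℝ) ≤ N := by exact_mod_cast Nat.sub_le _ _
      linarith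
    have hb5 : (Y : ℝ) * ((X : ℝ) ^ c * G) ≤ (X : ℝ) ^ (1 - 2 * c) * (2 * C * Real.log X) := by
      calc (Y : ℝ) * ((X : ℝ) ^ c * G) ≤
          (X : ℝ) ^ (3 * c) * ((X : ℝ) ^ c *
            ((X : ℝ) ^ (1 / 2 - 3 * c) * (2 * C * Real.log X))) := by
            gcongr
        _ = (X : ℝ) ^ (1 / 2 + c) * (2 * C * Real.log X) := by
            rw [← mul_assoc, ← mul_assoc, ← Real.rpow_add hX0', ← Real.rpow_add hX0']
            congr 2
            ring
        _ ≤ (X : ℝ) ^ (1 - 2 * c) * (2 * C * Real.log X) := by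
            refine mul_le_mul_of_nonneg_right ?_ (by positivity)
            exact Real.rpow_le_rpow_of_exponent_le hX1' (by linarith)
    have hb6 : (X : ℝ) ^ c * ((X : ℝ) * ∑ e ∈ Ioc Y N, ((e : ℝ) ^ 2)⁻¹ + ((N - Y : ℕ) : ℝ)) ≤
        4 * (X : ℝ) ^ (1 - 2 * c) := by
      refine (mul_le_mul_of_nonneg_left (add_le_add hb4 hb4') hXc.le).trans (le_of_eq ?_)
      have h1 : (X : ℝ) ^ (1 - 2 * c) = (X : ℝ) ^ c * (X : ℝ) ^ (1 - 3 * c) := by
        rw [← Real.rpow_add hX0']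
        congr 1
        ring
      rw [h1]
      ring
    calc (Y : ℝ) * ((X : ℝ) ^ c * G) +
          (X : ℝ) ^ c * ((X : ℝ) * ∑ e ∈ Ioc Y N, ((e : ℝ) ^ 2)⁻¹ + ((N - Y : ℕ) : ℝ)) ≤
        (X : ℝ) ^ (1 - 2 * c) * (2 * C * Real.log X) + 4 * (X : ℝ) ^ (1 - 2 * c) :=
          add_le_add hb5 hb6
      _ = (X : ℝ) ^ (1 - 2 * c) * (2 * C * Real.log X + 4) := by ring
      _ ≤ (X : ℝ) ^ (1 - 2 * c) * (X : ℝ) ^ c :=
          mul_le_mul_of_nonneg_left hgrow (by positivity)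
      _ = (X : ℝ) ^ (1 - c) := by
          rw [← Real.rpow_add hX0']
          congr 1
          ring

end Pool.Agent.H52.SH.V1
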