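import Pool.Agent.H52.SH.Stubs
import Pool.Agent.H52.V.S8.H38R2.CG3.Fin
import Pool.Agent.H52.V.A4.TH866.SR.Short

/-!
# Project SH: the last two statements (heavy imports)
-/

set_option autoImplicit false

namespace Pool.Agent.H52.SH

open Finset Filter NumberField Pool.Agent.H38R2.CG Pool.Agent.H38R2.CG2 Pool.Agent.H38R2.CG3
open Pool.Agent.H38R2.CG.FINh
open scoped Classical

/-- SH-SQ: few exceptional discriminants without prime factor in `Q` (compare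
`TH866.SR.short_q`). -/
def Q_SQ : Prop := ∀ a : ℝ, 2 < a → ∀ κ : ℝ, 0 < κ → ∀ t0 : ℝ, 0 < t0 → ∀ ε : ℝ, 0 < ε →
  ∃ η : ℝ, 0 < η ∧ η ≤ 1 ∧ ∃ X0 : ℕ, ∀ X ≥ X0, ∀ T : ℕ, RG a κ X T → (X : ℝ) ≤ η * T →
  ∀ Q : Set ℕ,
    (((Finset.Ioc T (T + X)).filter (fun D => (∀ q ∈ Q, q.Prime → 3 ≤ q → ¬ q ∣ D) ∧
      IsFund D ∧ Bd a t0 X D)).card : ℝ) ≤ ε * X * Pool.Agent.TH866.SR.pq Q X

/-- SH-EXC: exceptional `d` have exceptional discriminants (compare `CG3.exc_bd`; the parameters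
`yA a X`, `kA a X` belong to `X`, and `d ≥ T / 4 ≥ X / 4` can be much larger than `X`). -/
def Q_EXC : Prop := ∀ a : ℝ, 2 < a → ∀ ε : ℝ, ∃ X1 : ℕ, ∀ X ≥ X1, ∀ T : ℕ, X ≤ T →
  ∀ d : ℕ, 1 < d → Squarefree d → ¬ GoodE a ε d → T < Dof d → Dof d ≤ 2 * T →
    IsFund (Dof d) ∧ Bd a (min ε (1 / 4)) X (Dof d)

end Pool.Agent.H52.SH
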